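import Pool.Agent.Run7.h328.SEP.HypQ

/-!
# Moments predicted by the Sato-Tate conjecture for almost all hyperelliptic curves of every genus, with square-root error

For a vector `m` of `2 g + 1` integers let `C_m` be the smooth projective curve `y² = x ^ (2 g + 1) + m_(2g) x ^ (2 g) + ... + m_0`
of genus `g`, and for a prime `p` of good reduction let `1 + a_1 T + a_2 T ^ 2 + ...` be its normalised L-polynomial.  We consider
the moments of `a_1` up to the order `2 g + 3` and the joint moments of `a_1 ^ i a_2 ^ j` with `j ≤ 2`, `i + 2 j ≤ 2 g + 1`.  The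
expected values `usp g i j` are the means of `X_1 ^ i X_2 ^ j` over `USp(2g)`; for `j = 0` they are the `c_1(i; g)` of the problem
(the moments of a normal variable for `i ≤ 2 g + 1`, and one less for `i = 2 g + 2`), and `usp g 0 1 = c_2(1; g) = 1`,
`usp g 0 2 = c_2(2; g) = 2`.

We show, for all `g`: in every box of side `2 H + 1` in `ℤ ^ (2 g + 1)`, anywhere, all but a proportion `H ^ (-ε/500)` of the `m` have the
property

`|∑ w(p) p ^ (-iτ) (a_1(p) ^ i a_2(p) ^ j - usp g i j)| ≤ C (N ^ (1/2 + ε) + (log H) ^ (4/ε))`, `p ≤ N` of good reduction,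

for all pairs `(i, j)` above, all `N ≤ H ^ (ε/200)`, all `|τ| ≤ H ^ (ε/200)` and all `w` in a given set of at most `H ^ (ε/500)`
arbitrary complex weights of absolute value at most `1` (Dirichlet characters, the indicator functions of arbitrary sets of
primes, ...), at the same time.  With `w = 1`, `τ = 0`: these moments of `C_m` over the good primes up to `N` are the expected ones up to
the error `N ^ (-1/2 + 2ε)`, for all `N` between a power of `log H` and a power of `H`.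

Proof.  The means over all `m` modulo `p` are those of `USp(2g)` up to `O(1/p)`, by the independence of the values of a random monic
polynomial of degree `2 g + 1` at points and pairs of conjugate points (starting library `Y57.FD`, `V11210.G2`).  The residues
of `m` modulo the square-free numbers up to a power of `H` are uniformly distributed; hence the `2 j`-th moment of the sum over
`(y, 2 y]`, for `j` about `log H / log y`, is at most `(C j y) ^ j`.  We take the union over all `N`, the weights and a grid of `τ`.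
-/

set_option autoImplicit false

open Filter

namespace Pool.Agent.Results.MP_3da4c4_nt.EveryGenus

open Finset

/-- The number of the solutions of `y ^ 2 = x ^ (2 g + 1) + ∑ m_i x ^ i` in the field with `p` elements. -/
noncomputable def points₁ (g p : ℕ) (m : Fin (2 * g + 1) → ℤ) : ℕ :=
  Nat.card {P : ZMod p × ZMod p // P.2 ^ 2 = P.1 ^ (2 * g + 1) + ∑ i, (m i : ZMod p) * P.1 ^ (i : ℕ)}

open Classical in
/-- The number of the solutions of `y ^ 2 = x ^ (2 g + 1) + ∑ m_i x ^ i` in the field with `p ^ 2` elements. -/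
noncomputable def points₂ (g p : ℕ) (m : Fin (2 * g + 1) → ℤ) : ℕ :=
  if h : p.Prime then
    haveI : Fact p.Prime := ⟨h⟩
    Nat.card {P : GaloisField p 2 × GaloisField p 2 //
      P.2 ^ 2 = P.1 ^ (2 * g + 1) + ∑ i, (m i : GaloisField p 2) * P.1 ^ (i : ℕ)}
  else 0

/-- `p` is odd and the polynomial is separable modulo `p`, so that the curve `C_m` is smooth modulo `p`. -/
def Good (g p : ℕ) (m : Fin (2 * g + 1) → ℤ) : Prop :=
  p ≠ 2 ∧ (Polynomial.X ^ (2 * g + 1) + ∑ i, Polynomial.C (m i : ZMod p) * Polynomial.X ^ (i : ℕ) : Polynomial (ZMod p)).Separable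

/-- The coefficient `a_1` of the normalised L-polynomial: `(#C_m(F_p) - (p + 1)) / p ^ (1 / 2)`; there is one point at infinity. -/
noncomputable def a₁ (g p : ℕ) (m : Fin (2 * g + 1) → ℤ) : ℝ :=
  (((points₁ g p m : ℝ) + 1) - ((p : ℝ) + 1)) / Real.sqrt p

/-- The coefficient `a_2` of the normalised L-polynomial:
`((#C_m(F_p) - (p + 1)) ^ 2 + #C_m(F_{p ^ 2}) - (p ^ 2 + 1)) / (2 p)`. -/
noncomputable def a₂ (g p : ℕ) (m : Fin (2 * g + 1) → ℤ) : ℝ :=
  ((((points₁ g p m : ℝ) + 1) - ((p : ℝ) + 1)) ^ 2 + (((points₂ g p m : ℝ) + 1) - ((p : ℝ) ^ 2 + 1))) / (2 * p)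

/-- The moments of a standard normal variable. -/
noncomputable def normal (i : ℕ) : ℝ := if Even i then (Nat.doubleFactorial (i - 1) : ℝ) else 0

/-- The mean of `X_1 ^ i X_2 ^ j` over `USp(2g)`, for the pairs `(i, j)` below. -/
noncomputable def usp (g i j : ℕ) : ℝ :=
  if j = 0 then normal i - (if i = 2 * g + 2 then 1 else 0)
  else if j = 1 then (normal (i + 2) + normal i) / 2
  else (normal (i + 4) + 2 * normal (i + 2) + 3 * normal i) / 4

/-- The pairs of exponents. -/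
def Exponents (g i j : ℕ) : Prop := (j = 0 ∧ i ≤ 2 * g + 3) ∨ (j = 1 ∧ i + 2 ≤ 2 * g + 1) ∨ (j = 2 ∧ i + 4 ≤ 2 * g + 1)

open Classical in
/-- The sum over the primes `p ≤ N` of good reduction. -/
noncomputable def primeSum (g : ℕ) (m : Fin (2 * g + 1) → ℤ) (w : ℕ → ℂ) (i j N : ℕ) (τ : ℝ) : ℂ :=
  ∑ p ∈ (Icc 1 N).filter (fun p => p.Prime ∧ Good g p m),
    w p * (p : ℂ) ^ (-(τ * Complex.I) : ℂ) * ((a₁ g p m ^ i * a₂ g p m ^ j - usp g i j : ℝ) : ℂ)

/-- The box of side `2 H + 1` with the centre `a`. -/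
noncomputable def cube (g : ℕ) (a : Fin (2 * g + 1) → ℤ) (H : ℕ) : Finset (Fin (2 * g + 1) → ℤ) :=
  Fintype.piFinset fun i => Icc (a i - H) (a i + H)

lemma card_affine {F : Type} [Field F] [Fintype F] [DecidableEq F] (hF : ringChar F ≠ 2) (f : F → F) :
    (Nat.card {P : F × F // P.2 ^ 2 = f P.1} : ℝ) = (Fintype.card F : ℝ) + ∑ x : F, (quadraticChar F (f x) : ℝ) := by
  classical
  have h1 : Nat.card {P : F × F // P.2 ^ 2 = f P.1} = ∑ x : F, Nat.card {y : F // y ^ 2 = f x} := by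
    rw [← Nat.card_sigma]
    refine Nat.card_congr ⟨fun P => ⟨P.1.1, ⟨P.1.2, P.2⟩⟩, fun P => ⟨(P.1, P.2.1), P.2.2⟩, fun _ => rfl, fun _ => rfl⟩
  have h2 : ∀ x : F, ((Nat.card {y : F // y ^ 2 = f x} : ℕ) : ℤ) = quadraticChar F (f x) + 1 := by
    intro x
    rw [← quadraticChar_card_sqrts hF (f x)]
    congr 1
    rw [Nat.card_eq_fintype_card, Fintype.card_subtype]
    congr 1
    ext y
    simp
  rw [h1]
  push_cast
  have h3 : ∀ x : F, ((Nat.card {y : F // y ^ 2 = f x} : ℕ) : ℝ) = (quadraticChar F (f x) : ℝ) + 1 := by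
    intro x
    have := h2 x
    exact_mod_cast this
  rw [sum_congr rfl (fun x _ => h3 x), sum_add_distrib, sum_const, card_univ, nsmul_eq_mul, mul_one]
  ring

open Pool.Agent.Y722.HS (red PR mem_PR box) in
lemma a₁_eq (g p : ℕ) [hp : Fact p.Prime] (m : Fin (2 * g + 1) → ℤ) (h : Good g p m) :
    a₁ g p m = Pool.Agent.Y57.FD.HM.tr g p (Run7.h328.SEP.Hyp.rep p (red p m)) := by
  classical
  have h1 := Run7.h328.SEP.Hyp.cast_rep p (red p m)
  unfold a₁ Pool.Agent.Y57.FD.HM.tr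
  rw [dif_pos ⟨hp.out, h.1⟩, h1, if_pos, ZMod.card]
  · congr 1
    have h2 : (points₁ g p m : ℝ) = (p : ℝ) + ∑ x : ZMod p, (quadraticChar (ZMod p)
        (Pool.Agent.Y57.FD.Mom.val (ZMod p) (2 * g + 1) (red p m) x) : ℝ) := by
      unfold points₁
      rw [card_affine (Pool.Agent.V11210.G2.ringChar_zmod p h.1)
        (fun x => x ^ (2 * g + 1) + ∑ i, (m i : ZMod p) * x ^ (i : ℕ)), ZMod.card]
      rfl
    rw [h2]
    ring
  · exact h.2

open Pool.Agent.Y722.HS (red PR mem_PR box) in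
lemma a₂_eq (g p : ℕ) [hp : Fact p.Prime] (m : Fin (2 * g + 1) → ℤ) (h : Good g p m) :
    a₂ g p m = Pool.Agent.V11210.G2.A2 g p (Run7.h328.SEP.Hyp.rep p (red p m)) := by
  classical
  have hp0 : (0 : ℝ) < p := by exact_mod_cast hp.out.pos
  have h1 := Run7.h328.SEP.Hyp.cast_rep p (red p m)
  have e1 := a₁_eq g p m h
  unfold a₂ Pool.Agent.V11210.G2.A2
  rw [dif_pos ⟨hp.out, h.1⟩, h1, if_pos, ← e1]
  · have h2 : (points₂ g p m : ℝ) = (p : ℝ) ^ 2 + Pool.Agent.V11210.G2.SG p (red p m) := by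
      letI : Fintype (GaloisField p 2) := Fintype.ofFinite _
      unfold points₂
      rw [dif_pos hp.out, card_affine (Pool.Agent.V11210.G2.charL (ZMod p) (GaloisField p 2)
        (Pool.Agent.V11210.G2.ringChar_zmod p h.1))
        (fun x : GaloisField p 2 => x ^ (2 * g + 1) + ∑ i, (m i : GaloisField p 2) * x ^ (i : ℕ)),
        ← Nat.card_eq_fintype_card, GaloisField.card p 2 (by norm_num)]
      push_cast
      congr 1
    rw [h2]
    unfold a₁
    rw [div_pow, Real.sq_sqrt hp0.le]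
    field_simp
    ring
  · exact h.2

open Run7.h328.SEP.Hyp in
lemma usp_eq (g i j : ℕ) (h : Exponents g i j) : usp g i j = Pool.Agent.V11210.G2.mm g i j := by
  unfold usp Pool.Agent.V11210.G2.mm Pool.Agent.Y57.FD.Mom.usp
  rcases h with ⟨rfl, h⟩ | ⟨rfl, h⟩ | ⟨rfl, h⟩
  · simp only [if_true]
    rfl
  · have h1 : ¬ (i + 2 = 2 * g + 2) := by omega
    have h2 : ¬ (i = 2 * g + 2) := by omega
    simp only [h2, h1, if_false, if_true, one_ne_zero, sub_zero]
    rfl
  · have h1 : ¬ (i + 2 = 2 * g + 2) := by omega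
    have h2 : ¬ (i = 2 * g + 2) := by omega
    have h3 : ¬ (i + 4 = 2 * g + 2) := by omega
    have h4 : ¬ (2 = 1) := by omega
    simp only [h2, h1, h3, h4, if_false, two_ne_zero, sub_zero]
    rfl

open Pool.Agent.Y722.HS (red PR mem_PR box) in
open Run7.h328.SEP.Hyp in
lemma primeSum_eq (g : ℕ) (m : Fin (2 * g + 1) → ℤ) (w : ℕ → ℂ) (i j N : ℕ) (hij : Exponents g i j) (τ : ℝ) :
    primeSum g m w i j N τ = ∑ p ∈ PR N, (p : ℂ) ^ (-((τ : ℂ) * Complex.I)) * (w p * (YY g (i, j) p (red p m) : ℂ)) := by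
  classical
  unfold primeSum
  have h1 : (Icc 1 N).filter (fun p => p.Prime ∧ Good g p m) = (PR N).filter (fun p => Good g p m) := by
    ext p
    rw [mem_filter, mem_filter, mem_PR, mem_Icc]
    constructor
    · rintro ⟨⟨_, h2⟩, h3, h4⟩
      exact ⟨⟨h2, h3⟩, h4⟩
    · rintro ⟨⟨h2, h3⟩, h4⟩
      exact ⟨⟨h3.one_lt.le, h2⟩, h3, h4⟩
  rw [h1, sum_filter]
  refine Finset.sum_congr rfl fun p hp => ?_
  have hpp := (mem_PR.mp hp).2
  haveI : Fact p.Prime := ⟨hpp⟩
  unfold YY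
  by_cases h : Good g p m
  · have h' : Gd p (red p m) := h
    rw [if_pos h, if_pos h', a₁_eq g p m h, a₂_eq g p m h, usp_eq g i j hij]
    ring
  · have h' : ¬ Gd p (red p m) := h
    rw [if_neg h, if_neg h']
    simp

/-- **The theorem.**  See the head of the file. -/
theorem result (g : ℕ) : ∃ C : ℝ, 0 < C ∧ ∀ ε : ℝ, 0 < ε → ε ≤ 1 → ∃ H₀ : ℕ, ∀ H : ℕ, H₀ ≤ H →
    ∀ a : Fin (2 * g + 1) → ℤ, ∀ W : Finset (ℕ → ℂ), (W.card : ℝ) ≤ (H : ℝ) ^ (ε / 500) → (∀ w ∈ W, ∀ p, ‖w p‖ ≤ 1) →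
    ∃ X ⊆ cube g a H, (X.card : ℝ) ≤ (H : ℝ) ^ (-(ε / 500)) * (2 * H + 1) ^ (2 * g + 1) ∧
      ∀ m ∈ cube g a H \ X, ∀ w ∈ W, ∀ i j : ℕ, Exponents g i j → ∀ (N : ℕ) (τ : ℝ),
        (N : ℝ) ≤ (H : ℝ) ^ (ε / 200) → |τ| ≤ (H : ℝ) ^ (ε / 200) →
          ‖primeSum g m w i j N τ‖ ≤ C * ((N : ℝ) ^ (1 / 2 + ε) + Real.log H ^ (4 / ε)) := by
  classical
  obtain ⟨C, hC, h1⟩ := Run7.h328.SEP.Hyp.hyp_main g
  refine ⟨C, hC, fun ε hε hε1 => ?_⟩
  obtain ⟨H₀, h2⟩ := eventually_atTop.mp (h1 ε hε hε1)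
  refine ⟨H₀, fun H hH a W hWc hW => ?_⟩
  obtain ⟨Ex, hE1, hE2, hE3⟩ := h2 H hH a W hW hWc
  have hmem : ∀ c : Fin (2 * g + 1) → ℤ, c ∈ Pool.Agent.Y722.HS.box (Fin (2 * g + 1)) H ↔ a + c ∈ cube g a H := by
    intro c
    unfold Pool.Agent.Y722.HS.box Pool.Agent.Y722.HS.IH cube
    rw [Fintype.mem_piFinset, Fintype.mem_piFinset]
    refine forall_congr' fun i => ?_
    rw [mem_Icc, mem_Icc, Pi.add_apply]
    constructor <;> rintro ⟨h3, h4⟩ <;> constructor <;> linarith
  have hcard : ((Pool.Agent.Y722.HS.box (Fin (2 * g + 1)) H).card : ℝ) = (2 * H + 1) ^ (2 * g + 1) := by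
    unfold Pool.Agent.Y722.HS.box Pool.Agent.Y722.HS.IH
    rw [Fintype.card_piFinset]
    simp only [Int.card_Icc, Finset.prod_const, Finset.card_univ, Fintype.card_fin]
    have h3 : ((H : ℤ) + 1 - -(H : ℤ)).toNat = 2 * H + 1 := by omega
    rw [h3]
    push_cast
    ring
  have hinj : Function.Injective (fun c : Fin (2 * g + 1) → ℤ => a + c) := fun c c' h => add_left_cancel h
  refine ⟨Ex.image (fun c => a + c), ?_, ?_, ?_⟩
  · intro m hm
    obtain ⟨c, hc, rfl⟩ := mem_image.mp hm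
    exact (hmem c).mp (hE1 hc)
  · rw [card_image_of_injective _ hinj, ← hcard]
    exact hE2
  · intro m hm w hw i j hij N τ hN hτ
    obtain ⟨hm1, hm2⟩ := Finset.mem_sdiff.mp hm
    have e : a + (m - a) = m := by abel
    have hc : m - a ∈ Pool.Agent.Y722.HS.box (Fin (2 * g + 1)) H \ Ex := by
      refine Finset.mem_sdiff.mpr ⟨(hmem _).mpr (by rw [e]; exact hm1), fun h => hm2 (mem_image.mpr ⟨m - a, h, e⟩)⟩
    have h3 := hE3 (m - a) hc w hw (i, j) hij N hN τ hτ
    rw [e] at h3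
    rw [primeSum_eq g m w i j N hij τ]
    exact h3

end Pool.Agent.Results.MP_3da4c4_nt.EveryGenus
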