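import Pool.Agent.Run7.h712.HE.Ext
import Pool.Agent.Run7.h712.HE.Knd
import Pool.Agent.Run7.h712.HE.Cnt

/-!
# Weyl sums of the irreducible characters of `USp (2 g)` for almost all hyperelliptic curves in thin families

`C_l` is the curve `y ² = x ^ (2 g_l + 1) + ∑ i ≤ 2 g_l, c_{l, i} x ^ i` (`1 ≤ l ≤ r`) over `ℚ`.
-/

set_option autoImplicit false

namespace Pool.Agent.Results.MP_3da4c4_nt.IrreducibleCharacters

open Finset Filter MeasureTheory Polynomial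

/-- The number of the solutions of `y ^ 2 = x ^ D + ∑ c_i x ^ i` over the field with `p ^ j` elements. For odd `D` the curve has one more
point, at infinity. -/
noncomputable def points {D : ℕ} (c : Fin D → ℤ) (p j : ℕ) [Fact p.Prime] : ℕ :=
  Nat.card {P : GaloisField p j × GaloisField p j // P.2 ^ 2 = P.1 ^ D + ∑ i, (c i : GaloisField p j) * P.1 ^ (i : ℕ)}

/-- The coefficients of `exp (∑ s_j T ^ j / j)`, by Newton's identities; this is `∏ (1 - α T)` if `s_j` is minus the sum of the `α ^ j`. -/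
noncomputable def newton (s : ℕ → ℝ) : ℕ → ℝ
  | 0 => 1
  | k + 1 => (∑ j : Fin (k + 1), s (j + 1) * newton s (k - j)) / (k + 1)

section
variable {r : ℕ} {g : Fin r → ℕ}

/-- The prime `p` is odd and the `r` polynomials are separable modulo `p`. -/
def Good (c : (Σ l : Fin r, Fin (2 * g l + 1)) → ℤ) (p : ℕ) : Prop :=
  p.Prime ∧ p ≠ 2 ∧ ∀ l, (X ^ (2 * g l + 1) + ∑ i : Fin (2 * g l + 1), C (c ⟨l, i⟩ : ZMod p) * X ^ (i : ℕ) : (ZMod p)[X]).Separable

open Classical in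
/-- the good primes `p ≤ T` -/
noncomputable def V (c : (Σ l : Fin r, Fin (2 * g l + 1)) → ℤ) (T : ℕ) : Finset ℕ := (range (T + 1)).filter fun p => Good c p

/-- The coefficient `a_{k, p}` of `T ^ k` in the normalised L-polynomial of the curve `C_l` at the prime `p`; the sum of the `j`-th powers of
the normalised eigenvalues of the Frobenius is minus `(points - p ^ j) / p ^ (j / 2)`. -/
noncomputable def coeff (c : (Σ l : Fin r, Fin (2 * g l + 1)) → ℤ) (l : Fin r) (p k : ℕ) : ℝ :=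
  if h : p.Prime then
    haveI : Fact p.Prime := ⟨h⟩
    newton (fun j => ((points (fun i => c ⟨l, i⟩) p j : ℝ) - (p : ℝ) ^ j) / Real.sqrt p ^ j) k
  else 0

/-- The trace `(- 1) ^ k a_{k, p}` of the normalised Frobenius on the `k`-th exterior power of the cohomology of `C_l`; zero for negative `k`. -/
noncomputable def ext (c : (Σ l : Fin r, Fin (2 * g l + 1)) → ℤ) (l : Fin r) (p : ℕ) (k : ℤ) : ℝ :=
  if 0 ≤ k then (-1) ^ k.toNat * coeff c l p k.toNat else 0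

/-- The value, at the Frobenius of `C_l` at `p`, of the character of `USp (2 g_l)` with the Young diagram whose columns have the lengths
`μ 0 ≥ μ 1 ≥ …`: the dual Jacobi-Trudi determinant of the `e (μ i - i + j) - e (μ i - i - j - 2)` for the indices `0 ≤ i, j < n`. -/
noncomputable def character (c : (Σ l : Fin r, Fin (2 * g l + 1)) → ℤ) (l : Fin r) {n : ℕ} (μ : Fin n → ℕ) (p : ℕ) : ℝ :=
  (Matrix.of fun i j : Fin n => ext c l p ((μ i : ℤ) - (i : ℕ) + (j : ℕ)) - ext c l p ((μ i : ℤ) - (i : ℕ) - (j : ℕ) - 2)).det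

open Classical in
/-- For all `T` with `y ≤ T ≤ N ^ κ`: there are at most `T ^ (1 / 2 + δ)` primes `p ≤ T` which are not good, and for all the weights `w` of the
family `𝒲 T` the Weyl sums with these weights, over the good primes `p ≤ T`, of all the products of the characters of the Young diagrams with
at most `2 g_l + 1` boxes, not all empty, are at most `T ^ (1 / 2 + δ)`. -/
def Regular (δ : ℝ) (𝒲 : ℕ → Finset (ℕ → ℝ)) (κ : ℝ) (N y : ℕ) (c : (Σ l : Fin r, Fin (2 * g l + 1)) → ℤ) : Prop :=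
  ∀ T : ℕ, y ≤ T → (T : ℝ) ≤ (N : ℝ) ^ κ →
    (((range (T + 1)).filter fun p => p.Prime ∧ ¬ Good c p).card : ℝ) ≤ (T : ℝ) ^ (1 / 2 + δ) ∧
    ∀ w ∈ 𝒲 T, ∀ (n : Fin r → ℕ) (μ : ∀ l, Fin (n l) → ℕ), (∀ l, Antitone (μ l)) → (∀ l i, 1 ≤ μ l i) → (∀ l, ∑ i, μ l i ≤ 2 * g l + 1) →
      (∃ l, 0 < n l) → |∑ p ∈ V c T, w p * ∏ l, character c l (μ l) p| ≤ (T : ℝ) ^ (1 / 2 + δ)

end

section
variable {J : Type} [Fintype J] [DecidableEq J]

open Classical in
/-- All but the proportion `y ^ (-E)` of the members in any box with sides at least `N`, anywhere. -/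
def Boxes (P : ℝ → ℕ → ℕ → (J → ℤ) → Prop) (E : ℕ) : Prop :=
  ∃ κ : ℝ, 0 < κ ∧ ∃ y₀ : ℕ, ∀ y N : ℕ, y₀ ≤ y → 2 ≤ N → ∀ (a : J → ℤ) (L : J → ℕ), (∀ i, N ≤ L i) →
    (((Fintype.piFinset fun l => Ioc (a l) (a l + L l)).filter fun c => ¬ P κ N y c).card : ℝ) ≤
      1 / (y : ℝ) ^ E * (Fintype.piFinset fun l => Ioc (a l) (a l + L l)).card

open Classical in
/-- All but the proportion `y ^ (-E)` of the members `x t`, for the integers `t ∈ (N, 2 N]` and for the primes `t ∈ (N, 2 N]`. -/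
def AlmostAll (P : ℝ → ℕ → ℕ → (J → ℤ) → Prop) (E : ℕ) (x : ℕ → J → ℤ) : Prop :=
  ∃ κ : ℝ, 0 < κ ∧ ∃ y₀ : ℕ, ∀ y N : ℕ, y₀ ≤ y → 2 ≤ N →
    (((Ioc N (2 * N)).filter fun t => ¬ P κ N y (x t)).card : ℝ) ≤ 1 / (y : ℝ) ^ E * (Ioc N (2 * N)).card ∧
    ((((Ioc N (2 * N)).filter Nat.Prime).filter fun t => ¬ P κ N y (x t)).card : ℝ) ≤
      1 / (y : ℝ) ^ E * ((Ioc N (2 * N)).filter Nat.Prime).card

end

/-- The generalised polynomial `∑ t ∈ F, a t * X ^ t` has the leading exponent `c`, which is positive and not an integer, and a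
positive leading coefficient. -/
def Admissible (F : Finset ℝ) (a : ℝ → ℝ) (c : ℝ) : Prop :=
  c ∈ F ∧ (∀ t ∈ F, t ≤ c) ∧ 0 < c ∧ (∀ k : ℕ, c ≠ k) ∧ 0 < a c

/-- The functions `F t` have separated derivatives and increasing second derivatives on `[u, v]`, for large `t`. -/
def Separated (ρ u v : ℝ) (F : ℕ → ℝ → ℝ) : Prop :=
  (∀ n, ContDiff ℝ 2 (F n)) ∧ ∃ n₀ : ℕ, ∀ n, n₀ ≤ n → ∀ x ∈ Set.Icc u v,
    (n : ℝ) ^ (ρ - 1) ≤ deriv (F (n + 1)) x - deriv (F n) x ∧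
      deriv (deriv (F n)) x ≤ deriv (deriv (F (n + 1))) x

theorem newton_eq (s : ℕ → ℝ) (k : ℕ) : newton s k = Pool.Agent.Run7.h712.HE.coe (fun j => s (j + 1)) k := by
  induction k using Nat.strong_induction_on with
  | _ k ih =>
    rcases k with _ | k
    · rw [newton, Pool.Agent.Run7.h712.HE.coe]
    · rw [newton, Pool.Agent.Run7.h712.HE.coe]
      congr 1
      refine Finset.sum_congr rfl fun j _ => ?_
      rw [ih (k - j) (by omega)]

section
variable {r : ℕ} {g : Fin r → ℕ}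

open Pool.Agent.Run7.h712.HE (cur Gd Ph Pf PE CP ch ev sn ez)
open Pool.Agent.Y722.HS (red PR mem_PR)

theorem Good_iff (c : (Σ l : Fin r, Fin (2 * g l + 1)) → ℤ) (p : ℕ) [hp : Fact p.Prime] : Good c p ↔ Gd p (cur (red p c)) :=
  ⟨fun h => h.2, fun h => ⟨hp.out, h⟩⟩

theorem coeff_eq (c : (Σ l : Fin r, Fin (2 * g l + 1)) → ℤ) (l : Fin r) (p : ℕ) [hp : Fact p.Prime] (h2 : p ≠ 2) (k : ℕ) :
    coeff c l p k = Pool.Agent.Run7.h712.HE.coe (sn p (d := 2 * g l) (cur (red p c) l)) k := by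
  unfold coeff
  rw [dif_pos hp.out, newton_eq]
  congr 1
  funext j
  have h1 := Pool.Agent.Run7.h712.HE.points_eq h2 (fun i => c ⟨l, i⟩) (j := j + 1) (by omega)
  have h3 : (points (fun i => c ⟨l, i⟩) p (j + 1) : ℝ) = Pool.Agent.Run7.h712.HE.points (fun i => c ⟨l, i⟩) p (j + 1) := rfl
  rw [h3, h1, add_sub_cancel_left]
  rfl

theorem character_eq (c : (Σ l : Fin r, Fin (2 * g l + 1)) → ℤ) (l : Fin r) (p : ℕ) [hp : Fact p.Prime] (h2 : p ≠ 2) {n : ℕ} (μ : Fin n → ℕ) :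
    character c l μ p = (-1) ^ (∑ i, μ i) * ev p (d := 2 * g l) (CP μ) (cur (red p c) l) := by
  have h1 : ∀ k : ℤ, ext c l p k = ez (sn p (d := 2 * g l) (cur (red p c) l)) k := by
    intro k
    unfold ext ez
    rw [coeff_eq c l p h2]
  unfold character
  simp only [h1]
  rw [Pool.Agent.Run7.h712.HE.ez_det, Pool.Agent.Run7.h712.HE.ev_CP]

open Classical in
theorem sum_none (c : (Σ l : Fin r, Fin (2 * g l + 1)) → ℤ) (T : ℕ) :
    ∑ p ∈ PR T, 1 * Ph g (none : Option (Fin 0 → ℕ)) p (red p c) = ((range (T + 1)).filter fun p => p.Prime ∧ ¬ Good c p).card := by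
  rw [card_filter]
  push_cast
  have h1 : ∀ p ∈ range (T + 1), p ∉ PR T → (if p.Prime ∧ ¬ Good c p then (1 : ℝ) else 0) = 0 := by
    intro p hp hpn
    rw [if_neg]
    intro h
    exact hpn (mem_PR.2 ⟨by have := mem_range.1 hp; omega, h.1⟩)
  rw [← Finset.sum_subset (fun p hp => mem_range.2 (by have := (mem_PR.1 hp).1; omega)) h1]
  refine Finset.sum_congr rfl fun p hp => ?_
  have : Fact p.Prime := ⟨(mem_PR.1 hp).2⟩
  unfold Ph
  rw [dif_pos (mem_PR.1 hp).2]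
  simp only
  by_cases h : Good c p
  · have h3 : ¬ (p.Prime ∧ ¬ Good c p) := fun h' => h'.2 h
    have h4 := (Good_iff c p).1 h
    rw [if_pos h4, if_neg h3, one_mul]
  · have h3 : p.Prime ∧ ¬ Good c p := ⟨(mem_PR.1 hp).2, h⟩
    have h4 : ¬ Gd p (cur (red p c)) := fun h' => h ((Good_iff c p).2 h')
    rw [if_neg h4, if_pos h3, one_mul]

open Classical in
theorem sum_some (c : (Σ l : Fin r, Fin (2 * g l + 1)) → ℤ) (w : ℕ → ℝ) (T : ℕ) (ν : Fin r → Σ n : ℕ, Fin n → ℕ) :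
    (-1) ^ (∑ l, ∑ i, (ν l).2 i) * ∑ p ∈ PR T, w p * Pf g (fun p _ v => PE g (fun l => CP (ν l).2) p v) p (red p c) =
      ∑ p ∈ V c T, w p * ∏ l, character c l (ν l).2 p := by
  unfold V
  rw [Finset.sum_filter]
  have h1 : ∀ p ∈ range (T + 1), p ∉ PR T → (if Good c p then w p * ∏ l, character c l (ν l).2 p else 0) = 0 := by
    intro p hp hpn
    rw [if_neg]
    intro h
    exact hpn (mem_PR.2 ⟨by have := mem_range.1 hp; omega, h.1⟩)
  rw [← Finset.sum_subset (fun p hp => mem_range.2 (by have := (mem_PR.1 hp).1; omega)) h1, mul_sum]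
  refine Finset.sum_congr rfl fun p hp => ?_
  have : Fact p.Prime := ⟨(mem_PR.1 hp).2⟩
  unfold Pf
  rw [dif_pos (mem_PR.1 hp).2]
  by_cases h : Good c p
  · rw [if_pos ((Good_iff c p).1 h), if_pos h]
    have h3 : ∏ l, character c l (ν l).2 p = (-1) ^ (∑ l, ∑ i, (ν l).2 i) * PE g (fun l => CP (ν l).2) p (cur (red p c)) := by
      unfold PE
      rw [Finset.prod_congr rfl fun l _ => character_eq c l p h.2.1 (ν l).2, Finset.prod_mul_distrib, Finset.prod_pow_eq_pow_sum]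
    rw [h3]
    ring
  · have h4 : ¬ Gd p (cur (red p c)) := fun h' => h ((Good_iff c p).2 h')
    rw [if_neg h4, if_neg h, mul_zero, mul_zero]

open Classical in
theorem main (δ : ℝ) (hδ : 0 < δ) (E B : ℕ) (𝒲 : ℕ → Finset (ℕ → ℝ)) (h𝒲 : ∀ T, 2 ≤ T → (𝒲 T).card ≤ T ^ B)
    (h𝒲1 : ∀ T, ∀ w ∈ 𝒲 T, ∀ p, |w p| ≤ 1) (κ : ℝ) (hκ : 0 < κ) (N₀ : ℕ) : ∃ κ' : ℝ, 0 < κ' ∧ ∃ y₀ : ℕ, 16 ≤ y₀ ∧ ∀ y M : ℕ, y₀ ≤ y → 2 ≤ M →
      ∀ (S : Finset ℕ) (x : ℕ → (Σ l : Fin r, Fin (2 * g l + 1)) → ℤ), (N₀ ≤ M → ∀ H : ℕ, (H : ℝ) ≤ (M : ℝ) ^ κ → Pool.Agent.N666.TM.Well S x H) →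
      ((S.filter fun t => ¬ Regular δ 𝒲 κ' M y (x t)).card : ℝ) ≤ 1 / (y : ℝ) ^ E * S.card := by
  obtain ⟨Q, hQ⟩ : ∃ Q : Finset (Option (Fin r → Σ n : ℕ, Fin n → ℕ)), Q = insert none
      (((Fintype.piFinset fun l : Fin r => (range (2 * g l + 2)).sigma fun n => Fintype.piFinset fun _ : Fin n => range (2 * g l + 2)).filter
        fun ν => (∀ l, ∑ i, (ν l).2 i ≤ 2 * g l + 1) ∧ ∃ l, ∃ h0 : 0 < (ν l).1, 1 ≤ (ν l).2 ⟨0, h0⟩).image some) :=
    ⟨_, rfl⟩
  have hQn : none ∈ Q := by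
    rw [hQ]
    exact mem_insert_self _ _
  have hQs : ∀ (n : Fin r → ℕ) (μ : ∀ l, Fin (n l) → ℕ), (∀ l i, 1 ≤ μ l i) → (∀ l, ∑ i, μ l i ≤ 2 * g l + 1) → (∃ l, 0 < n l) →
      some (fun l => (⟨n l, μ l⟩ : Σ n : ℕ, Fin n → ℕ)) ∈ Q := by
    intro n μ hk hs hl
    rw [hQ]
    refine mem_insert_of_mem (mem_image_of_mem _ ?_)
    rw [mem_filter, Fintype.mem_piFinset]
    refine ⟨fun l => ?_, hs, ?_⟩
    · rw [mem_sigma]
      refine ⟨?_, ?_⟩
      · rw [mem_range]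
        have h1 : ∑ i : Fin (n l), 1 ≤ ∑ i, μ l i := Finset.sum_le_sum fun i _ => hk l i
        rw [Finset.sum_const, card_univ, Fintype.card_fin, smul_eq_mul, mul_one] at h1
        have h2 := hs l
        show n l < 2 * g l + 2
        omega
      · rw [Fintype.mem_piFinset]
        intro i
        rw [mem_range]
        have h1 : μ l i ≤ ∑ i, μ l i := Finset.single_le_sum (f := fun i => μ l i) (fun _ _ => Nat.zero_le _) (mem_univ i)
        have h2 := hs l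
        show μ l i < 2 * g l + 2
        omega
    · obtain ⟨l, hl⟩ := hl
      exact ⟨l, hl, hk l _⟩
  have hQsum : ∀ ν : Fin r → Σ n : ℕ, Fin n → ℕ, some ν ∈ Q → (∀ l, ∑ i, (ν l).2 i ≤ 2 * g l + 1) ∧ ∃ l, ∃ h0 : 0 < (ν l).1, 1 ≤ (ν l).2 ⟨0, h0⟩ := by
    intro ν h
    rw [hQ, mem_insert] at h
    rcases h with h | h
    · exact absurd h (by simp)
    · rw [mem_image] at h
      obtain ⟨a, ha, hak⟩ := h
      rw [Option.some.injEq] at hak
      subst hak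
      exact (mem_filter.1 ha).2
  obtain ⟨Φ, hΦ⟩ : ∃ Φ : Option (Fin r → Σ n : ℕ, Fin n → ℕ) → ∀ p : ℕ, ((Σ l : Fin r, Fin (2 * g l + 1)) → ZMod p) → ℝ, Φ = fun θ p u =>
      match θ with
      | none => Ph g (none : Option (Fin 0 → ℕ)) p u
      | some ν => Pf g (fun p _ v => PE g (fun l => CP (ν l).2) p v) p u := ⟨_, rfl⟩
  obtain ⟨W, hW⟩ : ∃ W : ℕ → Finset (ℕ → ℝ), W = fun T => if T < 2 then ∅ else insert (fun _ => 1) (𝒲 T) := ⟨_, rfl⟩
  obtain ⟨κ', hκ', y₀, hy₀, h⟩ := Pool.Agent.Run7.h712.HE.well_main Q Φ (fun θ hθ => by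
      rw [hΦ]
      cases θ with
      | none => exact Pool.Agent.Run7.h712.HE.Ph_bound _
      | some ν => exact Pool.Agent.Run7.h712.HE.Pf_bound _ (Pool.Agent.Run7.h712.HE.PE_bound _))
    (fun θ hθ => by
      rw [hΦ]
      cases θ with
      | none => exact Pool.Agent.Run7.h712.HE.Ph_mean _ (fun k hk => absurd hk (by simp))
      | some ν =>
        obtain ⟨h1, l, h0, h2⟩ := hQsum ν hθ
        exact Pool.Agent.Run7.h712.HE.Pf_mean _ (Pool.Agent.Run7.h712.HE.PE_bound _) (Pool.Agent.Run7.h712.HE.chars_mean ν h1 l h0 h2))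
    δ hδ E (B + 1) W (fun T => by
      rw [hW]
      beta_reduce
      split_ifs with hT
      · rw [card_empty]
        exact Nat.zero_le _
      · refine (card_insert_le _ _).trans ?_
        have h1 := h𝒲 T (by omega)
        have h2 : 1 ≤ T ^ B := Nat.one_le_pow _ _ (by omega)
        have h3 : T ^ B * 2 ≤ T ^ (B + 1) := by
          rw [pow_succ]
          exact Nat.mul_le_mul_left _ (by omega)
        omega)
    (fun T w hw p => by
      rw [hW] at hw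
      beta_reduce at hw
      split_ifs at hw with hT
      · exact absurd hw (notMem_empty _)
      · rw [mem_insert] at hw
        rcases hw with rfl | hw
        · simp
        · exact h𝒲1 T w hw p) κ hκ N₀
  refine ⟨κ', hκ', y₀, hy₀, fun y M hy hM S x hw => ?_⟩
  refine le_trans ?_ (h y M hy hM S x hw)
  refine Nat.cast_le.2 (card_le_card fun t ht => ?_)
  rw [mem_filter] at ht ⊢
  refine ⟨ht.1, fun h' => ht.2 fun T hyT hT => ?_⟩
  have hT2 : ¬ T < 2 := by omega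
  refine ⟨?_, fun w hw n μ _ hk hs hl => ?_⟩
  · have h1 := h' T hyT hT (fun _ => 1) (by
      rw [hW]
      beta_reduce
      rw [if_neg hT2]
      exact mem_insert_self _ _) none hQn
    rw [hΦ] at h1
    have h2 := sum_none (x t) T
    rw [← h2]
    exact (le_abs_self _).trans h1
  · have h1 := h' T hyT hT w (by
      rw [hW]
      beta_reduce
      rw [if_neg hT2]
      exact mem_insert_of_mem hw) (some fun l => ⟨n l, μ l⟩) (hQs n μ hk hs hl)
    rw [hΦ] at h1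
    have h2 := sum_some (x t) w T fun l => ⟨n l, μ l⟩
    have h3 : |∑ p ∈ V (x t) T, w p * ∏ l, character (x t) l (μ l) p| =
        |(-1 : ℝ) ^ (∑ l, ∑ i, μ l i) * ∑ p ∈ PR T, w p * Pf g (fun p _ v => PE g (fun l => CP (μ l)) p v) p (red p (x t))| :=
      congrArg abs h2.symm
    rw [h3, abs_mul, abs_pow, abs_neg, abs_one, one_pow, one_mul]
    exact h1

/-- **Weyl sums of irreducible characters.** Let `𝒲 T` be a family of at most `T ^ B` real weights bounded by `1`, for all `T ≥ 2`, and let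
`δ > 0`. For every exponent `E`, all but the proportion `y ^ (-E)` of the `r`-tuples of curves are `Regular`,
* (1) in any box with sides at least `N`, anywhere;
* (2) for the parameters which are the integral parts of generalised polynomials with different leading exponents, at the integers `t` and at
  the primes `t` of `(N, 2 N]`;
* (3) for almost all members of the families of sequences `⌊f_i(t)(ξ_i)⌋` (separated derivatives), `⌊ξ_i g_i(t) + h_i(t)⌋`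
  (with `g_i (t + 1) - g_i t ≥ t ^ (ρ - 1)`) and `⌊ξ_i ^ g_i(t) + h_i(t)⌋` (`g_i` strictly increasing, `ξ_i > 1`), of any growth. -/
theorem result (hr : 1 ≤ r) (δ : ℝ) (hδ : 0 < δ) (E B : ℕ) (𝒲 : ℕ → Finset (ℕ → ℝ)) (h𝒲 : ∀ T, 2 ≤ T → (𝒲 T).card ≤ T ^ B)
    (h𝒲1 : ∀ T, ∀ w ∈ 𝒲 T, ∀ p, |w p| ≤ 1) (ρ : ℝ) (hρ : 0 < ρ) (hρ1 : ρ ≤ 1) :
    Boxes (Regular (g := g) δ 𝒲) E ∧
    (∀ (f : (Σ l : Fin r, Fin (2 * g l + 1)) → Finset ℝ) (b : (Σ l : Fin r, Fin (2 * g l + 1)) → ℝ → ℝ)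
      (c : (Σ l : Fin r, Fin (2 * g l + 1)) → ℝ), (∀ i, Admissible (f i) (b i) (c i)) → Function.Injective c →
      AlmostAll (Regular (g := g) δ 𝒲) E (fun t i => ⌊∑ s ∈ f i, b i s * (t : ℝ) ^ s⌋)) ∧
    (∀ (u v : (Σ l : Fin r, Fin (2 * g l + 1)) → ℝ) (f : (Σ l : Fin r, Fin (2 * g l + 1)) → ℕ → ℝ → ℝ), (∀ i, Separated ρ (u i) (v i) (f i)) →
      ∀ᵐ ξ : (Σ l : Fin r, Fin (2 * g l + 1)) → ℝ, (∀ i, ξ i ∈ Set.Ioc (u i) (v i)) →
        AlmostAll (Regular (g := g) δ 𝒲) E (fun t i => ⌊f i t (ξ i)⌋)) ∧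
    (∀ a h : (Σ l : Fin r, Fin (2 * g l + 1)) → ℕ → ℝ, (∀ i, ∀ᶠ t : ℕ in atTop, (t : ℝ) ^ (ρ - 1) ≤ a i (t + 1) - a i t) →
      ∀ᵐ ξ : (Σ l : Fin r, Fin (2 * g l + 1)) → ℝ, AlmostAll (Regular (g := g) δ 𝒲) E (fun t i => ⌊ξ i * a i t + h i t⌋)) ∧
    (∀ (a : (Σ l : Fin r, Fin (2 * g l + 1)) → ℕ → ℕ) (h : (Σ l : Fin r, Fin (2 * g l + 1)) → ℕ → ℝ), (∀ i, StrictMono (a i)) →
      ∀ᵐ ξ : (Σ l : Fin r, Fin (2 * g l + 1)) → ℝ, (∀ i, 1 < ξ i) →
        AlmostAll (Regular (g := g) δ 𝒲) E (fun t i => ⌊ξ i ^ a i t + h i t⌋)) := by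
  have : Nonempty (Σ l : Fin r, Fin (2 * g l + 1)) := ⟨⟨⟨0, hr⟩, 0⟩⟩
  exact Pool.Agent.Run7.h712.HE.kinds (Regular (g := g) δ 𝒲) E (main δ hδ E B 𝒲 h𝒲 h𝒲1) ρ hρ hρ1

end

end Pool.Agent.Results.MP_3da4c4_nt.IrreducibleCharacters
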