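import Pool.Agent.Run7.h712.HE.Lin
import Pool.Agent.Run7.h712.HE.Knd
import Pool.Agent.Run7.h712.HE.Cnt

/-!
# The joint normal law of the traces of the powers of Frobenius, for almost all tuples of hyperelliptic curves of large genus

`C_l` is the curve `y ² = x ^ (2 g_l + 1) + ∑ i ≤ 2 g_l, c_{l, i} x ^ i` (`1 ≤ l ≤ r`) over `ℚ`.
-/

set_option autoImplicit false

namespace Pool.Agent.Results.MP_3da4c4_nt.JointNormalLaw

open Finset Filter MeasureTheory Polynomial ProbabilityTheory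

/-- The number of the solutions of `y ^ 2 = x ^ D + ∑ c_i x ^ i` over the field with `p ^ j` elements. For odd `D` the curve has one more
point, at infinity. -/
noncomputable def points {D : ℕ} (c : Fin D → ℤ) (p j : ℕ) [Fact p.Prime] : ℕ :=
  Nat.card {P : GaloisField p j × GaloisField p j // P.2 ^ 2 = P.1 ^ D + ∑ i, (c i : GaloisField p j) * P.1 ^ (i : ℕ)}

section
variable {r : ℕ} {g : Fin r → ℕ}

/-- The prime `p` is odd and the `r` polynomials are separable modulo `p`. -/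
def Good (c : (Σ l : Fin r, Fin (2 * g l + 1)) → ℤ) (p : ℕ) : Prop :=
  p.Prime ∧ p ≠ 2 ∧ ∀ l, (X ^ (2 * g l + 1) + ∑ i : Fin (2 * g l + 1), C (c ⟨l, i⟩ : ZMod p) * X ^ (i : ℕ) : (ZMod p)[X]).Separable

/-- The number `z_j = - (t_j - m_j) / √j`, where `t_j = - (points - p ^ j) / p ^ (j / 2)` is the trace of the `j`-th power of the normalised
Frobenius of `C_l` at `p` and `m_j` is its mean over `USp (2 g)`: `- 1` if `j` is even and `0` if `j` is odd. -/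
noncomputable def z (c : (Σ l : Fin r, Fin (2 * g l + 1)) → ℤ) (l : Fin r) (j p : ℕ) : ℝ :=
  if h : p.Prime then
    haveI : Fact p.Prime := ⟨h⟩
    (((points (fun i => c ⟨l, i⟩) p j : ℝ) - (p : ℝ) ^ j) / Real.sqrt p ^ j - (if Even j then 1 else 0)) / Real.sqrt j
  else 0

open Classical in
/-- the good primes `p ≤ T` of the set `S` -/
noncomputable def V (c : (Σ l : Fin r, Fin (2 * g l + 1)) → ℤ) (S : Set ℕ) (T : ℕ) : Finset ℕ :=
  (range (T + 1)).filter fun p => Good c p ∧ p ∈ S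

open Classical in
/-- For all `T` with `y ≤ T ≤ N ^ κ`: there are at most `T ^ (1 / 2 + δ)` primes `p ≤ T` which are not good, and for all the sets `S` of the
family `𝒮 T` which contain at least `T ^ (1 / 2 + 2 δ)` good primes `p ≤ T`: for all unit vectors `θ` and all `x`, the proportion of these
primes with `∑ θ_{l, j} z_{l, j} ≤ x` (`1 ≤ l ≤ r`, `1 ≤ j ≤ k`) is that of the normal law, with an error of at most `4 / √n + T ^ (- δ / 2)`. -/
def Normal (k n : ℕ) (δ : ℝ) (𝒮 : ℕ → Finset (Set ℕ)) (κ : ℝ) (N y : ℕ) (c : (Σ l : Fin r, Fin (2 * g l + 1)) → ℤ) : Prop :=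
  ∀ T : ℕ, y ≤ T → (T : ℝ) ≤ (N : ℝ) ^ κ →
    (((range (T + 1)).filter fun p => p.Prime ∧ ¬ Good c p).card : ℝ) ≤ (T : ℝ) ^ (1 / 2 + δ) ∧
    ∀ S ∈ 𝒮 T, (T : ℝ) ^ (1 / 2 + 2 * δ) ≤ (V c S T).card → ∀ θ : Fin r → Fin k → ℝ, ∑ l, ∑ j, θ l j ^ 2 = 1 → ∀ x : ℝ,
      |(((V c S T).filter fun p => ∑ l, ∑ j : Fin k, θ l j * z c l ((j : ℕ) + 1) p ≤ x).card : ℝ) / (V c S T).card -
        (gaussianReal 0 1).real (Set.Iic x)| ≤ 4 / Real.sqrt n + (T : ℝ) ^ (-(δ / 2))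

end

section
variable {J : Type} [Fintype J] [DecidableEq J]

open Classical in
/-- All but the proportion `y ^ (-E)` of the members in any box with sides at least `N`, anywhere. -/
def Boxes (P : ℝ → ℕ → ℕ → (J → ℤ) → Prop) (E : ℕ) : Prop :=
  ∃ κ : ℝ, 0 < κ ∧ ∃ y₀ : ℕ, ∀ y N : ℕ, y₀ ≤ y → 2 ≤ N → ∀ (a : J → ℤ) (L : J → ℕ), (∀ i, N ≤ L i) →
    (((Fintype.piFinset fun l => Ioc (a l) (a l + L l)).filter fun c => ¬ P κ N y c).card : ℝ) ≤
      1 / (y : ℝ) ^ E * (Fintype.piFinset fun l => Ioc (a l) (a l + L l)).card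

open Classical in
/-- All but the proportion `y ^ (-E)` of the members `x t`, for the integers `t ∈ (N, 2 N]` and for the primes `t ∈ (N, 2 N]`. -/
def AlmostAll (P : ℝ → ℕ → ℕ → (J → ℤ) → Prop) (E : ℕ) (x : ℕ → J → ℤ) : Prop :=
  ∃ κ : ℝ, 0 < κ ∧ ∃ y₀ : ℕ, ∀ y N : ℕ, y₀ ≤ y → 2 ≤ N →
    (((Ioc N (2 * N)).filter fun t => ¬ P κ N y (x t)).card : ℝ) ≤ 1 / (y : ℝ) ^ E * (Ioc N (2 * N)).card ∧
    ((((Ioc N (2 * N)).filter Nat.Prime).filter fun t => ¬ P κ N y (x t)).card : ℝ) ≤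
      1 / (y : ℝ) ^ E * ((Ioc N (2 * N)).filter Nat.Prime).card

end

/-- The generalised polynomial `∑ t ∈ F, a t * X ^ t` has the leading exponent `c`, which is positive and not an integer, and a
positive leading coefficient. -/
def Admissible (F : Finset ℝ) (a : ℝ → ℝ) (c : ℝ) : Prop :=
  c ∈ F ∧ (∀ t ∈ F, t ≤ c) ∧ 0 < c ∧ (∀ k : ℕ, c ≠ k) ∧ 0 < a c

/-- The functions `F t` have separated derivatives and increasing second derivatives on `[u, v]`, for large `t`. -/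
def Separated (ρ u v : ℝ) (F : ℕ → ℝ → ℝ) : Prop :=
  (∀ n, ContDiff ℝ 2 (F n)) ∧ ∃ n₀ : ℕ, ∀ n, n₀ ≤ n → ∀ x ∈ Set.Icc u v,
    (n : ℝ) ^ (ρ - 1) ≤ deriv (F (n + 1)) x - deriv (F n) x ∧
      deriv (deriv (F n)) x ≤ deriv (deriv (F (n + 1))) x

section
variable {r : ℕ} {g : Fin r → ℕ}

open Pool.Agent.Run7.h712.HE (cur Gd Ph Pf PE MP NC zs sn)
open Pool.Agent.Y722.HS (red PR mem_PR)
open Q282MM (gm)

theorem Good_iff (c : (Σ l : Fin r, Fin (2 * g l + 1)) → ℤ) (p : ℕ) [hp : Fact p.Prime] : Good c p ↔ Gd p (cur (red p c)) :=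
  ⟨fun h => h.2, fun h => ⟨hp.out, h⟩⟩

theorem z_eq (c : (Σ l : Fin r, Fin (2 * g l + 1)) → ℤ) {k : ℕ} (p : ℕ) [hp : Fact p.Prime] (h2 : p ≠ 2) (i : Fin (r * k)) :
    z c (finProdFinEquiv.symm i).1 (((finProdFinEquiv.symm i).2 : ℕ) + 1) p = zs p (cur (red p c)) i := by
  unfold z zs
  rw [dif_pos hp.out]
  have h1 := Pool.Agent.Run7.h712.HE.points_eq h2 (fun i' => c ⟨(finProdFinEquiv.symm i).1, i'⟩) (j := ((finProdFinEquiv.symm i).2 : ℕ) + 1) (by omega)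
  have h3 : (points (fun i' => c ⟨(finProdFinEquiv.symm i).1, i'⟩) p (((finProdFinEquiv.symm i).2 : ℕ) + 1) : ℝ) =
    Pool.Agent.Run7.h712.HE.points (fun i' => c ⟨(finProdFinEquiv.symm i).1, i'⟩) p (((finProdFinEquiv.symm i).2 : ℕ) + 1) := rfl
  rw [h3, h1, add_sub_cancel_left]
  push_cast
  rfl

open Classical in
theorem sum_none (c : (Σ l : Fin r, Fin (2 * g l + 1)) → ℤ) (T : ℕ) :
    ∑ p ∈ PR T, 1 * Ph g (none : Option (Fin 0 → ℕ)) p (red p c) = ((range (T + 1)).filter fun p => p.Prime ∧ ¬ Good c p).card := by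
  rw [card_filter]
  push_cast
  have h1 : ∀ p ∈ range (T + 1), p ∉ PR T → (if p.Prime ∧ ¬ Good c p then (1 : ℝ) else 0) = 0 := by
    intro p hp hpn
    rw [if_neg]
    intro h
    exact hpn (mem_PR.2 ⟨by have := mem_range.1 hp; omega, h.1⟩)
  rw [← Finset.sum_subset (fun p hp => mem_range.2 (by have := (mem_PR.1 hp).1; omega)) h1]
  refine Finset.sum_congr rfl fun p hp => ?_
  have : Fact p.Prime := ⟨(mem_PR.1 hp).2⟩
  unfold Ph
  rw [dif_pos (mem_PR.1 hp).2]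
  simp only
  by_cases h : Good c p
  · have h3 : ¬ (p.Prime ∧ ¬ Good c p) := fun h' => h'.2 h
    have h4 := (Good_iff c p).1 h
    rw [if_pos h4, if_neg h3, one_mul]
  · have h3 : p.Prime ∧ ¬ Good c p := ⟨(mem_PR.1 hp).2, h⟩
    have h4 : ¬ Gd p (cur (red p c)) := fun h' => h ((Good_iff c p).2 h')
    rw [if_neg h4, if_pos h3, one_mul]

open Classical in
theorem sum_some (c : (Σ l : Fin r, Fin (2 * g l + 1)) → ℤ) (S : Set ℕ) (T : ℕ) {k : ℕ} (κ : Fin (r * k) → ℕ) :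
    ∑ p ∈ PR T, (if p ∈ S then 1 else 0) * Pf g (fun p _ v => PE g (MP κ) p v - NC κ * ∏ i, (gm (κ i) : ℝ)) p (red p c) =
      NC κ * ∑ p ∈ V c S T, (∏ i : Fin (r * k), z c (finProdFinEquiv.symm i).1 (((finProdFinEquiv.symm i).2 : ℕ) + 1) p ^ κ i -
        ∏ i, (gm (κ i) : ℝ)) := by
  unfold V
  rw [Finset.sum_filter, mul_sum]
  have h1 : ∀ p ∈ range (T + 1), p ∉ PR T → NC κ * (if Good c p ∧ p ∈ S then
      (∏ i : Fin (r * k), z c (finProdFinEquiv.symm i).1 (((finProdFinEquiv.symm i).2 : ℕ) + 1) p ^ κ i - ∏ i, (gm (κ i) : ℝ)) else 0) = 0 := by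
    intro p hp hpn
    rw [if_neg, mul_zero]
    intro h
    exact hpn (mem_PR.2 ⟨by have := mem_range.1 hp; omega, h.1.1⟩)
  rw [← Finset.sum_subset (fun p hp => mem_range.2 (by have := (mem_PR.1 hp).1; omega)) h1]
  refine Finset.sum_congr rfl fun p hp => ?_
  have : Fact p.Prime := ⟨(mem_PR.1 hp).2⟩
  unfold Pf
  rw [dif_pos (mem_PR.1 hp).2]
  by_cases h : Good c p
  · rw [if_pos ((Good_iff c p).1 h)]
    by_cases hS : p ∈ S
    · rw [if_pos hS, if_pos ⟨h, hS⟩, one_mul]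
      beta_reduce
      rw [Pool.Agent.Run7.h712.HE.PE_MP, mul_sub]
      congr 2
      exact Finset.prod_congr rfl fun i _ => by rw [z_eq c p h.2.1 i]
    · rw [if_neg hS, if_neg (fun h' => hS h'.2), zero_mul, mul_zero]
  · have h4 : ¬ Gd p (cur (red p c)) := fun h' => h ((Good_iff c p).2 h')
    have h3 : ¬ (Good c p ∧ p ∈ S) := fun h' => h h'.1
    rw [if_neg h4, if_neg h3, mul_zero, mul_zero]

open Classical in
theorem main (k n : ℕ) (hn : 1 ≤ n) (hg : ∀ l, 2 * n * k ≤ 2 * g l + 1) (δ : ℝ) (hδ : 0 < δ) (E B : ℕ) (𝒮 : ℕ → Finset (Set ℕ))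
    (h𝒮 : ∀ T, 2 ≤ T → (𝒮 T).card ≤ T ^ B) (κ : ℝ) (hκ : 0 < κ) (N₀ : ℕ) : ∃ κ' : ℝ, 0 < κ' ∧ ∃ y₀ : ℕ, 16 ≤ y₀ ∧ ∀ y M : ℕ, y₀ ≤ y → 2 ≤ M →
      ∀ (S : Finset ℕ) (x : ℕ → (Σ l : Fin r, Fin (2 * g l + 1)) → ℤ), (N₀ ≤ M → ∀ H : ℕ, (H : ℝ) ≤ (M : ℝ) ^ κ → Pool.Agent.N666.TM.Well S x H) →
      ((S.filter fun t => ¬ Normal k n δ 𝒮 κ' M y (x t)).card : ℝ) ≤ 1 / (y : ℝ) ^ E * S.card := by
  obtain ⟨Q, hQ⟩ : ∃ Q : Finset (Option (Fin (r * k) → ℕ)), Q = insert none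
      (((Fintype.piFinset fun _ : Fin (r * k) => range (2 * n + 1)).filter fun a => ∑ i, a i ≤ 2 * n).image some) := ⟨_, rfl⟩
  have hQn : none ∈ Q := by
    rw [hQ]
    exact mem_insert_self _ _
  have hQs : ∀ a : Fin (r * k) → ℕ, ∑ i, a i ≤ 2 * n → some a ∈ Q := by
    intro a hs
    rw [hQ]
    refine mem_insert_of_mem (mem_image_of_mem _ ?_)
    rw [mem_filter, Fintype.mem_piFinset]
    refine ⟨fun i => ?_, hs⟩
    rw [mem_range]
    have h1 : a i ≤ ∑ i, a i := Finset.single_le_sum (f := fun i => a i) (fun _ _ => Nat.zero_le _) (mem_univ i)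
    omega
  have hQsum : ∀ a : Fin (r * k) → ℕ, some a ∈ Q → ∑ i, a i ≤ 2 * n := by
    intro a h
    rw [hQ, mem_insert] at h
    rcases h with h | h
    · exact absurd h (by simp)
    · rw [mem_image] at h
      obtain ⟨b, hb, hab⟩ := h
      rw [Option.some.injEq] at hab
      subst hab
      exact (mem_filter.1 hb).2
  obtain ⟨Φ, hΦ⟩ : ∃ Φ : Option (Fin (r * k) → ℕ) → ∀ p : ℕ, ((Σ l : Fin r, Fin (2 * g l + 1)) → ZMod p) → ℝ, Φ = fun θ p u =>
      match θ with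
      | none => Ph g (none : Option (Fin 0 → ℕ)) p u
      | some a => Pf g (fun p _ v => PE g (MP a) p v - NC a * ∏ i, (gm (a i) : ℝ)) p u := ⟨_, rfl⟩
  obtain ⟨W, hW⟩ : ∃ W : ℕ → Finset (ℕ → ℝ), W = fun T => if T < 2 then ∅ else
      insert (fun _ => 1) ((𝒮 T).image fun S p => if p ∈ S then 1 else 0) := ⟨_, rfl⟩
  obtain ⟨y₁, hdist⟩ := Pool.Agent.Run7.h712.HE.lin_dist (r * k) n hn δ hδ
  have hbd : ∀ a : Fin (r * k) → ℕ, ∃ M : ℝ, 0 ≤ M ∧ ∀ (p : ℕ) (hp : Fact p.Prime), p ≠ 2 →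
      ∀ u : ∀ l, Fin (2 * g l + 1) → ZMod p, |PE g (MP a) p u - NC a * ∏ i, (gm (a i) : ℝ)| ≤ M := by
    intro a
    obtain ⟨M, hM, h1⟩ := Pool.Agent.Run7.h712.HE.PE_bound (g := g) (MP a)
    refine ⟨M + |NC a * ∏ i, (gm (a i) : ℝ)|, by positivity, fun p hp hp2 u => ?_⟩
    have h2 := h1 p hp hp2 u
    have h3 := abs_sub (PE g (MP a) p u) (NC a * ∏ i, (gm (a i) : ℝ))
    linarith
  obtain ⟨κ', hκ', y₀, hy₀, h⟩ := Pool.Agent.Run7.h712.HE.well_main Q Φ (fun θ hθ => by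
      rw [hΦ]
      cases θ with
      | none => exact Pool.Agent.Run7.h712.HE.Ph_bound _
      | some a => exact Pool.Agent.Run7.h712.HE.Pf_bound _ (hbd a))
    (fun θ hθ => by
      rw [hΦ]
      cases θ with
      | none => exact Pool.Agent.Run7.h712.HE.Ph_mean _ (fun k hk => absurd hk (by simp))
      | some a =>
        obtain ⟨M, hM, h1⟩ := Pool.Agent.Run7.h712.HE.PE_bound (g := g) (MP a)
        have h2 := Pool.Agent.Run7.h712.HE.PE_mom (g := g) (MP a) fun l => Pool.Agent.Run7.h712.HE.WS.mono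
          (le_trans (by
            have h3 := hQsum a hθ
            calc k * ∑ i, a i ≤ k * (2 * n) := Nat.mul_le_mul_left _ h3
              _ = 2 * n * k := by ring) (hg l)) (Pool.Agent.Run7.h712.HE.MP_WS a l)
        rw [Pool.Agent.Run7.h712.HE.LF_MP] at h2
        obtain ⟨D, hD, h3⟩ := Pool.Agent.Run7.h712.HE.mean_sub hM h1 h2
        exact ⟨D, hD, fun p hp => h3 p hp⟩) (δ / 2) (by positivity) E (B + 1) W (fun T => by
      rw [hW]
      beta_reduce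
      split_ifs with hT
      · rw [card_empty]
        exact Nat.zero_le _
      · refine (card_insert_le _ _).trans ?_
        have h1 : ((𝒮 T).image fun S p => if p ∈ S then (1 : ℝ) else 0).card ≤ T ^ B := card_image_le.trans (h𝒮 T (by omega))
        have h2 : 1 ≤ T ^ B := Nat.one_le_pow _ _ (by omega)
        have h3 : T ^ B * 2 ≤ T ^ (B + 1) := by
          rw [pow_succ]
          exact Nat.mul_le_mul_left _ (by omega)
        omega)
    (fun T w hw p => by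
      rw [hW] at hw
      beta_reduce at hw
      split_ifs at hw with hT
      · exact absurd hw (notMem_empty _)
      · rw [mem_insert, mem_image] at hw
        rcases hw with rfl | ⟨S, _, rfl⟩
        · simp
        · show |(if p ∈ S then (1 : ℝ) else 0)| ≤ 1
          split_ifs <;> simp) κ hκ N₀
  refine ⟨κ', hκ', y₀ + y₁, by omega, fun y M hy hM S x hw => ?_⟩
  refine le_trans ?_ (h y M (by omega) hM S x hw)
  refine Nat.cast_le.2 (card_le_card fun t ht => ?_)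
  rw [mem_filter] at ht ⊢
  refine ⟨ht.1, fun h' => ht.2 fun T hyT hT => ?_⟩
  have hT2 : ¬ T < 2 := by omega
  have hT1 : (1 : ℝ) ≤ T := by exact_mod_cast (by omega : 1 ≤ T)
  have hmom : ∀ S' ∈ 𝒮 T, ∀ a : Fin (r * k) → ℕ, ∑ i, a i ≤ 2 * n →
      |∑ p ∈ V (x t) S' T, (∏ i : Fin (r * k), z (x t) (finProdFinEquiv.symm i).1 (((finProdFinEquiv.symm i).2 : ℕ) + 1) p ^ a i -
        ∏ i, (gm (a i) : ℝ))| ≤ (T : ℝ) ^ (1 / 2 + δ / 2) := by
    intro S' hS' a hs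
    have h1 := h' T hyT hT (fun p => if p ∈ S' then 1 else 0) (by
      rw [hW]
      beta_reduce
      rw [if_neg hT2]
      exact mem_insert_of_mem (mem_image_of_mem _ hS')) (some a) (hQs a hs)
    rw [hΦ] at h1
    have h2 := sum_some (x t) S' T a
    have h3 : |NC a * ∑ p ∈ V (x t) S' T, (∏ i : Fin (r * k), z (x t) (finProdFinEquiv.symm i).1 (((finProdFinEquiv.symm i).2 : ℕ) + 1) p ^ a i -
        ∏ i, (gm (a i) : ℝ))| ≤ (T : ℝ) ^ (1 / 2 + δ / 2) := by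
      rw [← h2]
      exact h1
    have h4 := Pool.Agent.Run7.h712.HE.NC_ge a
    rw [abs_mul, abs_of_pos (by linarith : 0 < NC a)] at h3
    refine le_trans ?_ h3
    exact le_mul_of_one_le_left (abs_nonneg _) h4
  refine ⟨?_, fun S' hS' hV θ hθ X => ?_⟩
  · have h1 := h' T hyT hT (fun _ => 1) (by
      rw [hW]
      beta_reduce
      rw [if_neg hT2]
      exact mem_insert_self _ _) none hQn
    rw [hΦ] at h1
    have h2 := sum_none (x t) T
    rw [← h2]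
    refine ((le_abs_self _).trans h1).trans (Real.rpow_le_rpow_of_exponent_le hT1 (by linarith))
  · have h1 := hdist T (V (x t) S' T) (fun i p => z (x t) (finProdFinEquiv.symm i).1 (((finProdFinEquiv.symm i).2 : ℕ) + 1) p) (by omega) hV
      (hmom S' hS') (fun i => θ (finProdFinEquiv.symm i).1 (finProdFinEquiv.symm i).2) (by
        rw [Equiv.sum_comp (finProdFinEquiv (m := r) (n := k)).symm fun q => θ q.1 q.2 ^ 2, Fintype.sum_prod_type]
        exact hθ) X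
    have h2 : ∀ p, ∑ i : Fin (r * k), θ (finProdFinEquiv.symm i).1 (finProdFinEquiv.symm i).2 *
        z (x t) (finProdFinEquiv.symm i).1 (((finProdFinEquiv.symm i).2 : ℕ) + 1) p = ∑ l, ∑ j : Fin k, θ l j * z (x t) l ((j : ℕ) + 1) p := by
      intro p
      rw [Equiv.sum_comp (finProdFinEquiv (m := r) (n := k)).symm fun q => θ q.1 q.2 * z (x t) q.1 ((q.2 : ℕ) + 1) p, Fintype.sum_prod_type]
    simp only [h2] at h1
    exact h1

/-- **The joint normal law of the traces of the powers of Frobenius.** Let `n ≥ 1` and `2 n k ≤ 2 g_l + 1` for all `l`; let `𝒮 T` be a family of at most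
`T ^ B` sets, for all `T ≥ 2`, and let `δ > 0`. For every exponent `E`, all but the proportion `y ^ (-E)` of the `r`-tuples of curves are `Normal`,
* (1) in any box with sides at least `N`, anywhere;
* (2) for the parameters which are the integral parts of generalised polynomials with different leading exponents, at the integers `t` and at
  the primes `t` of `(N, 2 N]`;
* (3) for almost all members of the families of sequences `⌊f_i(t)(ξ_i)⌋` (separated derivatives), `⌊ξ_i g_i(t) + h_i(t)⌋`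
  (with `g_i (t + 1) - g_i t ≥ t ^ (ρ - 1)`) and `⌊ξ_i ^ g_i(t) + h_i(t)⌋` (`g_i` strictly increasing, `ξ_i > 1`), of any growth. -/
theorem result (hr : 1 ≤ r) (k n : ℕ) (hn : 1 ≤ n) (hg : ∀ l, 2 * n * k ≤ 2 * g l + 1) (δ : ℝ) (hδ : 0 < δ) (E B : ℕ)
    (𝒮 : ℕ → Finset (Set ℕ)) (h𝒮 : ∀ T, 2 ≤ T → (𝒮 T).card ≤ T ^ B) (ρ : ℝ) (hρ : 0 < ρ) (hρ1 : ρ ≤ 1) :
    Boxes (Normal (g := g) k n δ 𝒮) E ∧
    (∀ (f : (Σ l : Fin r, Fin (2 * g l + 1)) → Finset ℝ) (b : (Σ l : Fin r, Fin (2 * g l + 1)) → ℝ → ℝ)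
      (c : (Σ l : Fin r, Fin (2 * g l + 1)) → ℝ), (∀ i, Admissible (f i) (b i) (c i)) → Function.Injective c →
      AlmostAll (Normal (g := g) k n δ 𝒮) E (fun t i => ⌊∑ s ∈ f i, b i s * (t : ℝ) ^ s⌋)) ∧
    (∀ (u v : (Σ l : Fin r, Fin (2 * g l + 1)) → ℝ) (f : (Σ l : Fin r, Fin (2 * g l + 1)) → ℕ → ℝ → ℝ), (∀ i, Separated ρ (u i) (v i) (f i)) →
      ∀ᵐ ξ : (Σ l : Fin r, Fin (2 * g l + 1)) → ℝ, (∀ i, ξ i ∈ Set.Ioc (u i) (v i)) →
        AlmostAll (Normal (g := g) k n δ 𝒮) E (fun t i => ⌊f i t (ξ i)⌋)) ∧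
    (∀ a h : (Σ l : Fin r, Fin (2 * g l + 1)) → ℕ → ℝ, (∀ i, ∀ᶠ t : ℕ in atTop, (t : ℝ) ^ (ρ - 1) ≤ a i (t + 1) - a i t) →
      ∀ᵐ ξ : (Σ l : Fin r, Fin (2 * g l + 1)) → ℝ, AlmostAll (Normal (g := g) k n δ 𝒮) E (fun t i => ⌊ξ i * a i t + h i t⌋)) ∧
    (∀ (a : (Σ l : Fin r, Fin (2 * g l + 1)) → ℕ → ℕ) (h : (Σ l : Fin r, Fin (2 * g l + 1)) → ℕ → ℝ), (∀ i, StrictMono (a i)) →
      ∀ᵐ ξ : (Σ l : Fin r, Fin (2 * g l + 1)) → ℝ, (∀ i, 1 < ξ i) →
        AlmostAll (Normal (g := g) k n δ 𝒮) E (fun t i => ⌊ξ i ^ a i t + h i t⌋)) := by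
  have : Nonempty (Σ l : Fin r, Fin (2 * g l + 1)) := ⟨⟨⟨0, hr⟩, 0⟩⟩
  exact Pool.Agent.Run7.h712.HE.kinds (Normal (g := g) k n δ 𝒮) E (main k n hn hg δ hδ E B 𝒮 h𝒮) ρ hρ hρ1

end

end Pool.Agent.Results.MP_3da4c4_nt.JointNormalLaw
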