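import Pool.Agent.Run7.h113.HC.Blk
import Pool.Agent.Run7.h113.HC.Main

/-!
# The L-functions of the tensor powers of `H¹` of random hyperelliptic curves, up to the line `Re s = 1`

Let `C_c : y² = x^(2g+1) + c_{2g} x^{2g} + ... + c_0` run through the curves of genus `g` with integer coefficients
`|c_i| ≤ H`; almost all of them are generic. The question on the moment of order `m` of the normalised traces `a_{1,p}` of
one curve amounts to a statement on the L-function `L(s) = ∏_p det(1 - Frob_p p^(-s) | H¹^{⊗ m})^{-1}` (normalised:
eigenvalues of absolute value one): it should have a pole of order exactly `c_1(m; g)`, the moment of order `m` of the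
trace of a random matrix in `USp(2g)`, at `s = 1`, and no other zero or pole on the line `Re s = 1`. For `g ≥ 2` nothing of
this kind is known for a generic curve. Here the quotient of `L` by the power of the zeta function gets a *limit law* over
the family, for all `m ≤ 2g + 3`, and more generally for the tensor products of such tensor powers for finitely many
independent curves of genera `g_l`, `m_l ≤ 2 g_l + 3`, where the order of the pole is the product of the `c_1(m_l; g_l)`
(the Sato-Tate groups of different curves are independent).

The coefficients modulo the primes, chosen independently and uniformly, define a random Euler product. Its quotient by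
`ζ(s) ^ ρ`, `ρ` the product of the `c_1(m_l; g_l)`, has almost surely a logarithm `Φ` which is analytic in
`Re s > 1 / 2`. If `ε_H → 0` and `ε_H log H → ∞`, then the functions `s ↦ log (L(s + ε_H) / ζ(s + ε_H) ^ ρ)` of the random
curves of height at most `H` converge in distribution to `Φ`, uniformly on every compact subset `K` of the *closed*
half-plane `Re s ≥ 1`. In particular `ε_H ^ ρ |L(1 + ε_H)|` has a limit law on the positive real numbers. Both for `Φ`
and for the curves the probability of values `≥ V` is triple exponentially small.

Definitions (`Run7.h113.HC.Defs`, `Run7.h113.HC.Hyp`):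
* `IsFrobenius g β`: `β p r j`, `j < 2 g`, are the normalised eigenvalues of Frobenius on `H¹` of the curve with the
  coefficients `r` modulo `p` (given by the numbers of points over all finite extensions), if `p` is odd and the
  polynomial is separable modulo `p`; otherwise any numbers of absolute value at most `1` (e.g. `0`).
* `usp g m`: `(m - 1)!!` for even `m` and `0` for odd `m`, minus `1` if `m = 2 g + 2`; for `m ≤ 2 g + 3` this is
  `c_1(m; g)`.
* `HasRandomEulerProduct ρ α`: the statement above, for the Euler product `LFun α c s` over the `p` of the product of the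
  `(1 - α p (c mod p) j p^(-(1 + s)))⁻¹`. In the Lean text the variable `s` is shifted by `1`. `EulerLogs`: the
  logarithms; `Converges`: the random Euler product; `FunctionalLimit`: the limit theorem in `C(K, ℂ)`;
  `LeadingCoefficient`: the law at `s = 1`; `Tails`: large deviations.
-/

set_option autoImplicit false

namespace Pool.Agent.Results.MP_3da4c4_nt.TensorPowersOnTheEdge

open Finset
open Run7.h113.HC Run7.h113.FE
open Pool.Agent.Y57.FD.Mom (usp)

variable {k : ℕ} (g m : Fin k → ℕ)

/-- The coefficients of `k` polynomials of degrees `2 g_l + 1`. -/
abbrev Coeffs : Type := Σ l, Fin (2 * g l + 1)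

/-- The normalised eigenvalues of Frobenius on the tensor product of the `m_l`-th tensor powers of `H¹` of the
curves. -/
noncomputable def tensor (β : ∀ l, (p : Nat.Primes) → (Fin (2 * g l + 1) → ZMod p) → Fin (2 * g l) → ℂ)
    (p : Nat.Primes) (r : Coeffs g → ZMod p) (J : ∀ l, Fin (m l) → Fin (2 * g l)) : ℂ :=
  ∏ l, ∏ i, β l p (fun x => r ⟨l, x⟩) (J l i)

/-- **Random Euler products for the tensor powers.** Let `k` curves of genera `g_l` be given by independent integer
coefficients of absolute value at most `H`, and let `m_l ≤ 2 g_l + 3`. The L-functions of the tensor product of the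
`m_l`-th tensor powers of `H¹` of the curves, divided by `ζ(s) ^ ρ`, `ρ = ∏ c_1(m_l; g_l)`, converge in distribution to a
random Euler product on the closed half-plane `Re s ≥ 1`, with a limit law of the leading coefficient and triple
exponential tails. -/
theorem result (k : ℕ) (g m : Fin k → ℕ) (hm : ∀ l, m l ≤ 2 * g l + 3)
    (β : ∀ l, (p : Nat.Primes) → (Fin (2 * g l + 1) → ZMod p) → Fin (2 * g l) → ℂ) (hβ : ∀ l, IsFrobenius (g l) (β l)) :
    HasRandomEulerProduct (∏ l, usp (g l) (m l)) (tensor g m β) := by
  classical
  obtain ⟨C, hC, h⟩ := mean_prod g β hβ m hm
  refine main (C := C) (fun p r J => ?_) hC fun p => ?_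
  · unfold tensor
    rw [norm_prod]
    refine Finset.prod_le_one (fun l _ => norm_nonneg _) fun l _ => ?_
    rw [norm_prod]
    exact Finset.prod_le_one (fun i _ => norm_nonneg _) fun i _ => (hβ l).bound p _ _
  · refine le_trans (le_of_eq ?_) ((h p).trans (inv_le_half p hC))
    congr 2
    congr 1
    funext r
    unfold tensor TT
    have h1 : ∀ l, (∑ j, β l p (fun x => r ⟨l, x⟩) j) ^ m l =
        ∑ x : Fin (m l) → Fin (2 * g l), ∏ i, β l p (fun x => r ⟨l, x⟩) (x i) := fun l => Fintype.sum_pow _ _
    rw [Finset.prod_congr rfl fun l _ => h1 l, Finset.prod_univ_sum, Fintype.piFinset_univ]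

end Pool.Agent.Results.MP_3da4c4_nt.TensorPowersOnTheEdge
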